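import Pool.Agent.Helper30.TR.Spec

set_option autoImplicit false

namespace Pool.Agent.Helper10.TR.LN

open Set Pool.Agent.Helper30.TriFace Pool.Agent.Helper30.TR

theorem sin_half {y : ℝ} (h1 : Real.pi / 6 ≤ y) (h2 : y ≤ 5 * Real.pi / 6) :
    1 / 2 ≤ Real.sin y := by
  have hp := Real.pi_pos
  rw [← Real.sin_pi_div_six]
  rcases le_or_gt y (Real.pi / 2) with h | h
  · exact Real.sin_le_sin_of_le_of_le_pi_div_two (by linarith) h h1
  · rw [← Real.sin_pi_sub y]
    exact Real.sin_le_sin_of_le_of_le_pi_div_two (by linarith) (by linarith) (by linarith)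

/-- the meeting point of two lines near to a point -/
theorem meet {θ φ α β A B : ℝ} {x : ℝ × ℝ} (hs : 1 / 2 ≤ Real.sin (φ - θ))
    (hα : |α - hh θ x| ≤ A) (hβ : |β - hh φ x| ≤ B) :
    ∃ P : ℝ × ℝ, hh θ P = α ∧ hh φ P = β ∧ |P.1 - x.1| ≤ 2 * (A + B) ∧
      |P.2 - x.2| ≤ 2 * (A + B) := by
  set s := Real.sin (φ - θ) with hsd
  have hs0 : 0 < s := by linarith
  have hse : s = Real.sin φ * Real.cos θ - Real.cos φ * Real.sin θ := Real.sin_sub φ θ
  have key : ∀ a b : ℝ, |a| ≤ 1 → |b| ≤ 1 →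
      |((α - hh θ x) * a + (β - hh φ x) * b) / s| ≤ 2 * (A + B) := by
    intro a b ha hb
    rw [abs_div, abs_of_pos hs0, div_le_iff₀ hs0]
    have hA : 0 ≤ A := (abs_nonneg _).trans hα
    have hB : 0 ≤ B := (abs_nonneg _).trans hβ
    calc |(α - hh θ x) * a + (β - hh φ x) * b|
        ≤ |(α - hh θ x) * a| + |(β - hh φ x) * b| := abs_add_le _ _
      _ = |α - hh θ x| * |a| + |β - hh φ x| * |b| := by rw [abs_mul, abs_mul]
      _ ≤ A * 1 + B * 1 := by
          gcongr
      _ ≤ 2 * (A + B) * s := by nlinarith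
  refine ⟨(x.1 + ((α - hh θ x) * Real.sin φ + (β - hh φ x) * (-Real.sin θ)) / s,
    x.2 + ((α - hh θ x) * (-Real.cos φ) + (β - hh φ x) * Real.cos θ) / s), ?_, ?_, ?_, ?_⟩
  · have : hh θ (x.1 + ((α - hh θ x) * Real.sin φ + (β - hh φ x) * (-Real.sin θ)) / s,
        x.2 + ((α - hh θ x) * (-Real.cos φ) + (β - hh φ x) * Real.cos θ) / s) =
        hh θ x + (α - hh θ x) * ((Real.sin φ * Real.cos θ - Real.cos φ * Real.sin θ) / s) := by
      simp only [hh]
      ring
    rw [this, ← hse, div_self hs0.ne']; ring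
  · have : hh φ (x.1 + ((α - hh θ x) * Real.sin φ + (β - hh φ x) * (-Real.sin θ)) / s,
        x.2 + ((α - hh θ x) * (-Real.cos φ) + (β - hh φ x) * Real.cos θ) / s) =
        hh φ x + (β - hh φ x) * ((Real.sin φ * Real.cos θ - Real.cos φ * Real.sin θ) / s) := by
      simp only [hh]
      ring
    rw [this, ← hse, div_self hs0.ne']; ring
  · have := key (Real.sin φ) (-Real.sin θ) (Real.abs_sin_le_one φ)
      (by rw [abs_neg]; exact Real.abs_sin_le_one θ)
    simpa using this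
  · have := key (-Real.cos φ) (Real.cos θ) (by rw [abs_neg]; exact Real.abs_cos_le_one φ)
      (Real.abs_cos_le_one θ)
    simpa using this

theorem det_ne {ca sa cb sb cc sc α β γ : ℝ} {P1 P2 P3 : ℝ × ℝ}
    (h1b : P1.1 * cb + P1.2 * sb = β) (h1c : P1.1 * cc + P1.2 * sc = γ)
    (h2a : P2.1 * ca + P2.2 * sa = α) (h2c : P2.1 * cc + P2.2 * sc = γ)
    (h3a : P3.1 * ca + P3.2 * sa = α) (h3b : P3.1 * cb + P3.2 * sb = β)
    (hbc : sc * cb - cc * sb ≠ 0) (hδ : α - (P1.1 * ca + P1.2 * sa) ≠ 0) :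
    det3 P1 P2 P3 ≠ 0 := by
  set δ := α - (P1.1 * ca + P1.2 * sa) with hδd
  have u1 : (P2.1 - P1.1) * (sc * ca - cc * sa) = δ * sc := by
    rw [hδd]
    linear_combination sc * h2a - sa * h2c + sa * h1c
  have u2 : (P2.2 - P1.2) * (sc * ca - cc * sa) = -δ * cc := by
    rw [hδd]
    linear_combination (-cc) * h2a + ca * h2c - ca * h1c
  have v1 : (P3.1 - P1.1) * (sb * ca - cb * sa) = δ * sb := by
    rw [hδd]
    linear_combination sb * h3a - sa * h3b + sa * h1b
  have v2 : (P3.2 - P1.2) * (sb * ca - cb * sa) = -δ * cb := by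
    rw [hδd]
    linear_combination (-cb) * h3a + ca * h3b - ca * h1b
  intro h0
  have : δ ^ 2 * (sc * cb - cc * sb) = 0 := by
    unfold det3 at h0
    have e : ((P2.1 - P1.1) * (sc * ca - cc * sa)) * ((P3.2 - P1.2) * (sb * ca - cb * sa)) -
        ((P2.2 - P1.2) * (sc * ca - cc * sa)) * ((P3.1 - P1.1) * (sb * ca - cb * sa)) = 0 := by
      linear_combination (sc * ca - cc * sa) * (sb * ca - cb * sa) * h0
    rw [u1, u2, v1, v2] at e
    linear_combination -e
  rcases mul_eq_zero.1 this with h | h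
  · exact hδ (pow_eq_zero_iff (by norm_num) |>.1 h)
  · exact hbc h

theorem main : S_LN := by
  intro σ θa θb θc α β γ x hσ a0 a1 b0 b1 c0 c1 hα hβ hγ
  have hp := Real.pi_pos
  have hp2 : Real.pi < 3.15 := Real.pi_lt_d2
  have hca : 0.96 ≤ Real.cos θa := by
    have h := Real.one_sub_sq_div_two_le_cos (x := θa)
    have h2 : θa ≤ 0.2625 := by linarith
    nlinarith
  have hca1 : Real.cos θa ≤ 1 := Real.cos_le_one θa
  have hsa : Real.sin θa ≤ 0.27 := by
    have h := Real.sin_le a0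
    linarith
  have hsa0 : 0 ≤ Real.sin θa := Real.sin_nonneg_of_nonneg_of_le_pi a0 (by linarith)
  have sba : 1 / 2 ≤ Real.sin (θb - θa) := sin_half (by linarith) (by linarith)
  have sca : 1 / 2 ≤ Real.sin (θc - θa) := sin_half (by linarith) (by linarith)
  have scb : 1 / 2 ≤ Real.sin (θc - θb) := sin_half (by linarith) (by linarith)
  have hx : hh θa (x.1 + 10 * σ, x.2) = hh θa x + 10 * σ * Real.cos θa := by
    simp only [hh]; ring
  rw [hx] at hα
  have hα' : |α - hh θa x| ≤ 11 * σ := by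
    rw [abs_le] at hα ⊢
    constructor <;> nlinarith
  have hα2 : 8.6 * σ ≤ α - hh θa x := by
    rw [abs_le] at hα
    nlinarith
  have hβ' : |β - hh θb x| ≤ σ := by rw [abs_sub_comm]; exact hβ
  have hγ' : |γ - hh θc x| ≤ σ := by rw [abs_sub_comm]; exact hγ
  obtain ⟨P1, p1b, p1c, p11, p12⟩ := meet scb hβ' hγ'
  obtain ⟨P2, p2a, p2c, p21, p22⟩ := meet sca hα' hγ'
  obtain ⟨P3, p3a, p3b, p31, p32⟩ := meet sba hα' hβ'
  refine ⟨P1, P2, P3, p1b, p1c, p2a, p2c, p3a, p3b, ?_, ?_⟩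
  · refine det_ne p1b p1c p2a p2c p3a p3b ?_ ?_
    · rw [← Real.sin_sub]
      linarith
    · have e : α - (P1.1 * Real.cos θa + P1.2 * Real.sin θa) = (α - hh θa x) -
          ((P1.1 - x.1) * Real.cos θa + (P1.2 - x.2) * Real.sin θa) := by
        simp only [hh]; ring
      rw [e]
      have k1 : (P1.1 - x.1) * Real.cos θa ≤ 4 * σ := by
        have := (abs_le.1 p11).2
        nlinarith
      have k2 : (P1.2 - x.2) * Real.sin θa ≤ 4 * σ * 0.27 := by
        have := (abs_le.1 p12).2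
        nlinarith
      nlinarith
  · intro P hP
    simp only [mem_insert_iff, mem_singleton_iff] at hP
    rcases hP with rfl | rfl | rfl
    · constructor <;> linarith
    · constructor <;> linarith
    · constructor <;> linarith

end Pool.Agent.Helper10.TR.LN
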