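import Pool.Agent.Helper30.TR.Spec

set_option autoImplicit false

namespace Pool.Agent.Helper10.TR.MT

open Set Pool.Agent.Helper30.TriFace Pool.Agent.Helper30.TR
open scoped Classical

/-- interior points have positive barycentric coordinates -/
theorem int_bary {a b c : ℝ × ℝ} (hd : det3 a b c ≠ 0) {z : ℝ × ℝ}
    (hz : z ∈ interior (convexHull ℝ {a, b, c})) :
    ∃ u v w : ℝ, 0 < u ∧ 0 < v ∧ 0 < w ∧ u + v + w = 1 ∧ z = u • a + v • b + w • c := by
  have hind := affInd_of_det hd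
  have htop : affineSpan ℝ (range ![a, b, c]) = ⊤ := by
    rw [hind.affineSpan_eq_top_iff_card_eq_finrank_add_one]
    simp
  let B : AffineBasis (Fin 3) ℝ (ℝ × ℝ) := ⟨![a, b, c], hind, htop⟩
  have hB : (B : Fin 3 → ℝ × ℝ) = ![a, b, c] := rfl
  rw [← range_vec, ← hB, B.interior_convexHull] at hz
  have hs : B.coord 0 z + B.coord 1 z + B.coord 2 z = 1 := by
    have := B.sum_coord_apply_eq_one z
    rwa [Fin.sum_univ_three] at this
  have hx : z = B.coord 0 z • a + B.coord 1 z • b + B.coord 2 z • c := by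
    have := B.linear_combination_coord_eq_self z
    rw [Fin.sum_univ_three, hB] at this
    simpa using this.symm
  exact ⟨_, _, _, hz 0, hz 1, hz 2, hs, hx⟩

/-- an affine form -/
def fv (a b c : ℝ) (p : ℝ × ℝ) : ℝ := a * p.1 + b * p.2 + c

theorem fv_comb (a b c : ℝ) (x y z : ℝ × ℝ) {u v w : ℝ} (h : u + v + w = 1) :
    fv a b c (u • x + v • y + w • z) = u * fv a b c x + v * fv a b c y + w * fv a b c z := by
  unfold fv
  simp only [Prod.fst_add, Prod.smul_fst, Prod.snd_add, Prod.smul_snd, smul_eq_mul]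
  have : w = 1 - u - v := by linarith
  subst this
  ring

theorem fv_seg (a b c : ℝ) (x y : ℝ × ℝ) (t : ℝ) :
    fv a b c ((1 - t) • x + t • y) = (1 - t) * fv a b c x + t * fv a b c y := by
  unfold fv
  simp only [Prod.fst_add, Prod.smul_fst, Prod.snd_add, Prod.smul_snd, smul_eq_mul]
  ring

theorem det_seg (x y z : ℝ × ℝ) (s t : ℝ) :
    det3 x ((1 - s) • x + s • y) ((1 - t) • x + t • z) = s * t * det3 x y z := by
  unfold det3
  simp only [Prod.fst_add, Prod.smul_fst, Prod.snd_add, Prod.smul_snd, smul_eq_mul]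
  ring

/-- the zero on the segment -/
theorem zero_seg {v w : ℝ} (hv : v ≠ 0) (hw : v * w ≤ 0) :
    ∃ t : ℝ, 0 < t ∧ t ≤ 1 ∧ (1 - t) * v + t * w = 0 := by
  have h1 : 0 < v * (v - w) := by
    have : 0 < v * v := mul_self_pos.2 hv
    nlinarith
  have h2 : v - w ≠ 0 := by
    rintro h
    rw [h] at h1
    simp at h1
  refine ⟨v / (v - w), ?_, ?_, ?_⟩
  · have : v / (v - w) = v * v / (v * (v - w)) := by field_simp
    rw [this]; exact div_pos (mul_self_pos.2 hv) h1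
  · have : v / (v - w) = v * v / (v * (v - w)) := by field_simp
    rw [this, div_le_one h1]
    nlinarith
  · field_simp
    ring

theorem step {ι : Type} {E : Finset ι} {A B C : ι → ℝ} {e g h k : ι} {P1 P2 P3 : ℝ × ℝ}
    (hT : Trg E A B C e g h P1 P2 P3) (hk : k ∈ E)
    (v1 : fv (A k) (B k) (C k) P1 ≠ 0)
    (v2 : fv (A k) (B k) (C k) P1 * fv (A k) (B k) (C k) P2 ≤ 0)
    (v3 : fv (A k) (B k) (C k) P1 * fv (A k) (B k) (C k) P3 ≤ 0) :
    ∃ Q2 Q3 : ℝ × ℝ, Trg E A B C k g h P1 Q2 Q3 ∧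
      convexHull ℝ {P1, Q2, Q3} ⊆ convexHull ℝ {P1, P2, P3} ∧
      ∀ z ∈ interior (convexHull ℝ {P1, Q2, Q3}), fv (A k) (B k) (C k) z ≠ 0 := by
  obtain ⟨he, hg, hh, g1, h1, e2, h2, e3, g3, hd⟩ := hT
  obtain ⟨s, hs0, hs1, hs⟩ := zero_seg v1 v2
  obtain ⟨t, ht0, ht1, ht⟩ := zero_seg v1 v3
  have hQ2 : fv (A k) (B k) (C k) ((1 - s) • P1 + s • P2) = 0 := by rw [fv_seg]; exact hs
  have hQ3 : fv (A k) (B k) (C k) ((1 - t) • P1 + t • P3) = 0 := by rw [fv_seg]; exact ht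
  have hQ2h : fv (A h) (B h) (C h) ((1 - s) • P1 + s • P2) = 0 := by
    rw [fv_seg]
    have a1 : fv (A h) (B h) (C h) P1 = 0 := h1
    have a2 : fv (A h) (B h) (C h) P2 = 0 := h2
    rw [a1, a2]; ring
  have hQ3g : fv (A g) (B g) (C g) ((1 - t) • P1 + t • P3) = 0 := by
    rw [fv_seg]
    have a1 : fv (A g) (B g) (C g) P1 = 0 := g1
    have a2 : fv (A g) (B g) (C g) P3 = 0 := g3
    rw [a1, a2]; ring
  have hdet : det3 P1 ((1 - s) • P1 + s • P2) ((1 - t) • P1 + t • P3) ≠ 0 := by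
    rw [det_seg]; positivity
  refine ⟨(1 - s) • P1 + s • P2, (1 - t) • P1 + t • P3,
    ⟨hk, hg, hh, g1, h1, hQ2, hQ2h, hQ3, hQ3g, hdet⟩, ?_, ?_⟩
  · have m1 : P1 ∈ convexHull ℝ {P1, P2, P3} := subset_convexHull _ _ (by simp)
    have m2 : P2 ∈ convexHull ℝ {P1, P2, P3} := subset_convexHull _ _ (by simp)
    have m3 : P3 ∈ convexHull ℝ {P1, P2, P3} := subset_convexHull _ _ (by simp)
    refine convexHull_min ?_ (convex_convexHull _ _)
    intro x hx
    simp only [mem_insert_iff, mem_singleton_iff] at hx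
    rcases hx with rfl | rfl | rfl
    · exact m1
    · exact (convex_convexHull ℝ _) m1 m2 (by linarith) hs0.le (by ring)
    · exact (convex_convexHull ℝ _) m1 m3 (by linarith) ht0.le (by ring)
  · intro z hz
    obtain ⟨u, v, w, hu, hv, hw, hsum, rfl⟩ := int_bary hdet hz
    rw [fv_comb _ _ _ _ _ _ hsum, hQ2, hQ3]
    simp only [mul_zero, add_zero]
    exact mul_ne_zero hu.ne' v1

theorem Trg_cyc {ι : Type} {E : Finset ι} {A B C : ι → ℝ} {e g h : ι} {P1 P2 P3 : ℝ × ℝ}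
    (hT : Trg E A B C e g h P1 P2 P3) : Trg E A B C g h e P2 P3 P1 := by
  obtain ⟨he, hg, hh, g1, h1, e2, h2, e3, g3, hd⟩ := hT
  exact ⟨hg, hh, he, h2, e2, g3, e3, g1, h1, by rwa [← det3_cyc]⟩

theorem set_cyc (P1 P2 P3 : ℝ × ℝ) : ({P2, P3, P1} : Set (ℝ × ℝ)) = {P1, P2, P3} := by
  ext x; simp; tauto

/-- a line which meets the interior separates one vertex from the others -/
theorem split {v1 v2 v3 u v w : ℝ} (hu : 0 < u) (hv : 0 < v) (hw : 0 < w)
    (h : u * v1 + v * v2 + w * v3 = 0) (hne : ¬ (v1 = 0 ∧ v2 = 0 ∧ v3 = 0)) :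
    (v1 ≠ 0 ∧ v1 * v2 ≤ 0 ∧ v1 * v3 ≤ 0) ∨ (v2 ≠ 0 ∧ v2 * v3 ≤ 0 ∧ v2 * v1 ≤ 0) ∨
      (v3 ≠ 0 ∧ v3 * v1 ≤ 0 ∧ v3 * v2 ≤ 0) := by
  rcases lt_trichotomy v1 0 with h1 | h1 | h1 <;> rcases lt_trichotomy v2 0 with h2 | h2 | h2 <;>
    rcases lt_trichotomy v3 0 with h3 | h3 | h3
  all_goals first
    | (left; exact ⟨h1.ne, by nlinarith, by nlinarith⟩)
    | (left; exact ⟨h1.ne', by nlinarith, by nlinarith⟩)
    | (right; left; exact ⟨h2.ne, by nlinarith, by nlinarith⟩)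
    | (right; left; exact ⟨h2.ne', by nlinarith, by nlinarith⟩)
    | (right; right; exact ⟨h3.ne, by nlinarith, by nlinarith⟩)
    | (right; right; exact ⟨h3.ne', by nlinarith, by nlinarith⟩)
    | (exfalso; exact hne ⟨h1, h2, h3⟩)

theorem main : S_MT := by
  intro ι E A B C hE
  suffices H : ∀ N : ℕ, ∀ (e g h : ι) (P1 P2 P3 : ℝ × ℝ), Trg E A B C e g h P1 P2 P3 →
      (E.filter fun k => ∃ z ∈ interior (convexHull ℝ {P1, P2, P3}),
        fv (A k) (B k) (C k) z = 0).card ≤ N →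
      ∃ (e' g' h' : ι) (Q1 Q2 Q3 : ℝ × ℝ), Trg E A B C e' g' h' Q1 Q2 Q3 ∧
        Q1 ∈ convexHull ℝ {P1, P2, P3} ∧ Q2 ∈ convexHull ℝ {P1, P2, P3} ∧
        Q3 ∈ convexHull ℝ {P1, P2, P3} ∧
        ∀ k ∈ E, ∀ z ∈ interior (convexHull ℝ {Q1, Q2, Q3}), fv (A k) (B k) (C k) z ≠ 0 by
    intro e g h P1 P2 P3 hT
    exact H _ e g h P1 P2 P3 hT le_rfl
  intro N
  induction N with
  | zero =>
    intro e g h P1 P2 P3 hT hN
    refine ⟨e, g, h, P1, P2, P3, hT, subset_convexHull _ _ (by simp),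
      subset_convexHull _ _ (by simp), subset_convexHull _ _ (by simp), ?_⟩
    intro k hk z hz h0
    have : (E.filter fun k => ∃ z ∈ interior (convexHull ℝ {P1, P2, P3}),
        fv (A k) (B k) (C k) z = 0) = ∅ := Finset.card_eq_zero.1 (Nat.le_zero.1 hN)
    have hm : k ∈ (E.filter fun k => ∃ z ∈ interior (convexHull ℝ {P1, P2, P3}),
        fv (A k) (B k) (C k) z = 0) := Finset.mem_filter.2 ⟨hk, z, hz, h0⟩
    rw [this] at hm
    simp at hm
  | succ N ih =>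
    -- the reduction with the separated vertex first
    have red : ∀ (e g h : ι) (P1 P2 P3 : ℝ × ℝ), Trg E A B C e g h P1 P2 P3 →
        (E.filter fun k => ∃ z ∈ interior (convexHull ℝ {P1, P2, P3}),
          fv (A k) (B k) (C k) z = 0).card ≤ N + 1 → ∀ k ∈ E,
        (∃ z ∈ interior (convexHull ℝ {P1, P2, P3}), fv (A k) (B k) (C k) z = 0) →
        fv (A k) (B k) (C k) P1 ≠ 0 → fv (A k) (B k) (C k) P1 * fv (A k) (B k) (C k) P2 ≤ 0 →
        fv (A k) (B k) (C k) P1 * fv (A k) (B k) (C k) P3 ≤ 0 →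
        ∃ (e' g' h' : ι) (Q1 Q2 Q3 : ℝ × ℝ), Trg E A B C e' g' h' Q1 Q2 Q3 ∧
          Q1 ∈ convexHull ℝ {P1, P2, P3} ∧ Q2 ∈ convexHull ℝ {P1, P2, P3} ∧
          Q3 ∈ convexHull ℝ {P1, P2, P3} ∧
          ∀ k ∈ E, ∀ z ∈ interior (convexHull ℝ {Q1, Q2, Q3}), fv (A k) (B k) (C k) z ≠ 0 := by
      intro e g h P1 P2 P3 hT hN k hk hz v1 v2 v3
      obtain ⟨R2, R3, hT', hsub, hno⟩ := step hT hk v1 v2 v3
      have hlt : (E.filter fun k => ∃ z ∈ interior (convexHull ℝ {P1, R2, R3}),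
          fv (A k) (B k) (C k) z = 0).card < (E.filter fun k =>
          ∃ z ∈ interior (convexHull ℝ {P1, P2, P3}), fv (A k) (B k) (C k) z = 0).card := by
        apply Finset.card_lt_card
        rw [Finset.ssubset_iff_of_subset]
        · refine ⟨k, Finset.mem_filter.2 ⟨hk, hz⟩, ?_⟩
          intro hm
          obtain ⟨z, hz1, hz2⟩ := (Finset.mem_filter.1 hm).2
          exact hno z hz1 hz2
        · intro j hj
          obtain ⟨hjE, z, hz1, hz2⟩ := Finset.mem_filter.1 hj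
          exact Finset.mem_filter.2 ⟨hjE, z, interior_mono hsub hz1, hz2⟩
      obtain ⟨e', g', h', Q1, Q2, Q3, hQ, q1, q2, q3, hQn⟩ := ih k g h P1 R2 R3 hT' (by omega)
      exact ⟨e', g', h', Q1, Q2, Q3, hQ, hsub q1, hsub q2, hsub q3, hQn⟩
    intro e g h P1 P2 P3 hT hN
    by_cases hex : ∃ k ∈ E, ∃ z ∈ interior (convexHull ℝ {P1, P2, P3}),
        fv (A k) (B k) (C k) z = 0
    swap
    · refine ⟨e, g, h, P1, P2, P3, hT, subset_convexHull _ _ (by simp),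
        subset_convexHull _ _ (by simp), subset_convexHull _ _ (by simp), ?_⟩
      intro k hk z hz h0
      exact hex ⟨k, hk, z, hz, h0⟩
    obtain ⟨k, hk, z, hz, hz0⟩ := hex
    have hd : det3 P1 P2 P3 ≠ 0 := hT.2.2.2.2.2.2.2.2.2
    obtain ⟨u, v, w, hu, hv, hw, hsum, hzz⟩ := int_bary hd hz
    have hval : u * fv (A k) (B k) (C k) P1 + v * fv (A k) (B k) (C k) P2 +
        w * fv (A k) (B k) (C k) P3 = 0 := by
      rw [← fv_comb _ _ _ _ _ _ hsum, ← hzz, hz0]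
    have hne : ¬ (fv (A k) (B k) (C k) P1 = 0 ∧ fv (A k) (B k) (C k) P2 = 0 ∧
        fv (A k) (B k) (C k) P3 = 0) := by
      rintro ⟨a1, a2, a3⟩
      unfold fv at a1 a2 a3
      have b2 : A k * (P2.1 - P1.1) + B k * (P2.2 - P1.2) = 0 := by linarith
      have b3 : A k * (P3.1 - P1.1) + B k * (P3.2 - P1.2) = 0 := by linarith
      have c1 : A k * det3 P1 P2 P3 = 0 := by
        unfold det3
        linear_combination (P3.2 - P1.2) * b2 - (P2.2 - P1.2) * b3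
      have c2 : B k * det3 P1 P2 P3 = 0 := by
        unfold det3
        linear_combination (P2.1 - P1.1) * b3 - (P3.1 - P1.1) * b2
      rcases hE k hk with h' | h'
      · exact (mul_ne_zero h' hd) c1
      · exact (mul_ne_zero h' hd) c2
    rcases split hu hv hw hval hne with ⟨v1, v2, v3⟩ | ⟨v1, v2, v3⟩ | ⟨v1, v2, v3⟩
    · exact red e g h P1 P2 P3 hT hN k hk ⟨z, hz, hz0⟩ v1 v2 v3
    · have := red g h e P2 P3 P1 (Trg_cyc hT) (by rw [set_cyc]; exact hN) k hk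
        (by rw [set_cyc]; exact ⟨z, hz, hz0⟩) v1 v2 v3
      rw [set_cyc] at this
      exact this
    · have := red h e g P3 P1 P2 (Trg_cyc (Trg_cyc hT))
        (by rw [← set_cyc P3 P1 P2]; exact hN) k hk
        (by rw [← set_cyc P3 P1 P2]; exact ⟨z, hz, hz0⟩) v1 v2 v3
      rw [← set_cyc P3 P1 P2] at this
      exact this

end Pool.Agent.Helper10.TR.MT
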